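import Pool.Agent.H958.RL.Stm

set_option autoImplicit false

/-!
# The growth factor
-/

namespace Pool.Agent.H349.RL.NumG

open Pool.Agent.H958.RL

theorem main : Pool.Agent.H958.RL.S_NUMG := by
  intro ε c n a d h hε hε2 hc hcn h2n hn2 hadh hpa hd
  obtain ⟨η, hη⟩ : ∃ η : ℝ, η = ε / 40 := ⟨_, rfl⟩
  rw [← hη] at hcn hd ⊢
  have hη0 : 0 < η := by rw [hη]; positivity
  have hη1 : η ≤ 1 / 80 := by rw [hη]; linarith
  have hεη : ε = 40 * η := by rw [hη]; ring
  have hn : (0 : ℝ) < n := by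
    by_contra hcon
    have h1 : η * (n : ℝ) ≤ 0 := mul_nonpos_of_nonneg_of_nonpos hη0.le (not_lt.1 hcon)
    linarith
  obtain ⟨p, hp⟩ : ∃ p : ℝ, p = c / n := ⟨_, rfl⟩
  rw [← hp] at hpa ⊢
  have hpn : p * n = c := by rw [hp]; exact div_mul_cancel₀ _ hn.ne'
  have hp0 : 0 < p := by rw [hp]; exact div_pos (by linarith) hn
  have hpη : p ≤ η := by
    rw [hp, div_le_iff₀ hn]
    exact hcn
  obtain ⟨L, hL⟩ : ∃ L : ℕ, L = ⌈η / p⌉₊ := ⟨_, rfl⟩
  have hL1 : η / p ≤ L := by rw [hL]; exact Nat.le_ceil _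
  have hL2 : (L : ℝ) < η / p + 1 := by
    rw [hL]; exact Nat.ceil_lt_add_one (div_pos hη0 hp0).le
  have hLpos : 1 ≤ L := by
    rw [hL]
    exact Nat.one_le_ceil_iff.2 (div_pos hη0 hp0)
  have hy1 : η ≤ L * p := by
    rwa [div_le_iff₀ hp0] at hL1
  have hy2 : L * p ≤ 2 * η := by
    have h1 : (L : ℝ) * p < (η / p + 1) * p := mul_lt_mul_of_pos_right hL2 hp0
    rw [add_mul, div_mul_cancel₀ _ hp0.ne', one_mul] at h1
    linarith
  obtain ⟨M, hM⟩ : ∃ M : ℕ, M = h - (a + 2 * d) := ⟨_, rfl⟩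
  have hMh : a + 2 * d + M = h := by omega
  obtain ⟨J, hJ⟩ : ∃ J : ℕ, J = M / L := ⟨_, rfl⟩
  have hJ1 : J * L ≤ M := by rw [hJ]; exact Nat.div_mul_le_self M L
  have hJ2 : M < (J + 1) * L := by
    rw [hJ, mul_comm]
    exact Nat.lt_mul_div_succ M hLpos
  have hMr : (a : ℝ) + 2 * d + M = h := by exact_mod_cast hMh
  have hJ1r : (J : ℝ) * L ≤ M := by exact_mod_cast hJ1
  have hJ2r : (M : ℝ) ≤ (J + 1) * L := by exact_mod_cast hJ2.le
  have h2nr : 2 * (h : ℝ) ≤ n := by exact_mod_cast h2n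
  have hn2r : (n : ℝ) ≤ 2 * h + 1 := by exact_mod_cast hn2
  have hJ0 : (0 : ℝ) ≤ J := Nat.cast_nonneg _
  obtain ⟨y, hy⟩ : ∃ y : ℝ, y = L * p := ⟨_, rfl⟩
  rw [← hy] at hy1 hy2
  obtain ⟨x, hx⟩ : ∃ x : ℝ, x = (1 - 2 * η) * y := ⟨_, rfl⟩
  have hy0 : 0 < y := by linarith
  have hx0 : 0 ≤ x := by rw [hx]; exact mul_nonneg (by linarith) hy0.le
  have hxy : x ≤ y := by
    rw [hx]
    nlinarith
  have hxl : (1 - 3 * η) * y ≤ x * (1 - x / 2) := by
    have h1 : x * (1 - η) ≤ x * (1 - x / 2) := mul_le_mul_of_nonneg_left (by linarith) hx0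
    have h2 : (1 - 3 * η) * y ≤ x * (1 - η) := by
      rw [hx]
      nlinarith [mul_pos hη0 hη0, mul_pos (mul_pos hη0 hη0) hy0]
    exact h2.trans h1
  have hlog : (1 - 3 * η) * y ≤ Real.log (1 + x) := by
    refine hxl.trans (le_trans ?_ (Real.le_log_one_add_of_nonneg hx0))
    rw [le_div_iff₀ (by linarith)]
    nlinarith [mul_nonneg hx0 (mul_nonneg hx0 hx0)]
  refine ⟨L, J, hLpos, by omega, by rw [← hy]; exact hy1, by rw [← hy]; exact hy2, ?_, ?_⟩
  · rw [← hy, ← hx]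
    have h1x : 0 < 1 + x := by linarith
    have hpow : ((1 + x) ^ J) ^ 2 = Real.exp (2 * (J * Real.log (1 + x))) := by
      rw [← pow_mul, mul_comm J 2, pow_mul]
      have h3 : (1 + x) ^ 2 = Real.exp (2 * Real.log (1 + x)) := by
        rw [two_mul, Real.exp_add, Real.exp_log h1x]
        ring
      rw [h3, ← Real.exp_nat_mul]
      congr 1
      ring
    rw [hpow]
    refine Real.exp_le_exp.2 ?_
    have h4 : J * ((1 - 3 * η) * y) ≤ J * Real.log (1 + x) :=
      mul_le_mul_of_nonneg_left hlog hJ0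
    have h5 : c - p - 1 / 5 - 4 * η * c - 4 * η ≤ 2 * (J * y) := by
      rw [hy]
      have e1 : p * (M : ℝ) ≤ p * ((J + 1) * L) := mul_le_mul_of_nonneg_left hJ2r hp0.le
      have e2 : p * (n : ℝ) ≤ p * (2 * h + 1) := mul_le_mul_of_nonneg_left hn2r hp0.le
      have e3 : p * (d : ℝ) ≤ p * (η * n) := mul_le_mul_of_nonneg_left hd hp0.le
      have e4 : p * ((a : ℝ) + 2 * d + M) = p * h := by rw [hMr]
      have e5 : p * (η * n) = η * c := by rw [← hpn]; ring
      rw [e5] at e3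
      rw [hy] at hy2
      nlinarith
    have h6 : (1 - 3 * η) * (c - p - 1 / 5 - 4 * η * c - 4 * η) ≤
        (1 - 3 * η) * (2 * (J * y)) := mul_le_mul_of_nonneg_left h5 (by linarith)
    have h7 : (1 - ε / 4) * c - 2 ≤ (1 - 3 * η) * (c - p - 1 / 5 - 4 * η * c - 4 * η) := by
      rw [hεη]
      have f1 : 0 ≤ η * η * c := by positivity
      have f2 : 0 ≤ η * c := by positivity
      have f3 : 0 ≤ η * p := by positivity
      have f4 : 0 ≤ η * η := by positivity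
      nlinarith
    linarith
  · rw [← hy, ← hx]
    have h1 : 1 + x ≤ Real.exp x := by
      have := Real.add_one_le_exp x
      linarith
    calc (1 + x) ^ J ≤ (Real.exp x) ^ J := pow_le_pow_left₀ (by linarith) h1 J
      _ = Real.exp (J * x) := (Real.exp_nat_mul x J).symm
      _ ≤ Real.exp (c / 2) := by
        refine Real.exp_le_exp.2 ?_
        have h2 : (J : ℝ) * x ≤ J * y := mul_le_mul_of_nonneg_left hxy hJ0
        have h3 : (J : ℝ) * y ≤ p * M := by
          rw [hy]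
          nlinarith
        have h4 : p * (M : ℝ) ≤ p * h := by
          refine mul_le_mul_of_nonneg_left ?_ hp0.le
          have h5 : (0 : ℝ) ≤ a := Nat.cast_nonneg _
          have h6 : (0 : ℝ) ≤ d := Nat.cast_nonneg _
          linarith
        nlinarith

end Pool.Agent.H349.RL.NumG
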